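import Pool.Agent.H88.B2.Targets2

/-!
# bpd_modules, row DL2 (helper95): energy at width `w`, summed over the balls
-/

set_option autoImplicit false

namespace Pool.Agent.H95.B2.DL2

open MeasureTheory Set
open Pool.Agent.H83.G Pool.Agent.H88.B2
open Pool.Agent.H22.G4 (nv Ind)
open scoped ENNReal NNReal RealInnerProductSpace

lemma mem_SB {m : ℕ} {QQ : Finset (Zi m)} {R r δ : ℝ} {l k : ℕ} {S : Finset (Pk m)} {B : Zi m}
    {W : Pk m} (h : W ∈ SB QQ R r δ l k S B) : W ∈ S := by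
  classical
  unfold SB at h
  simp only [Finset.mem_filter] at h
  exact h.1

lemma card_SB {m : ℕ} (QQ : Finset (Zi m)) (R r δ : ℝ) (l k : ℕ) (S : Finset (Pk m)) (B : Zi m) :
    (SB QQ R r δ l k S B).card ≤ S.card :=
  Finset.card_le_card (fun _ h => mem_SB h)

open scoped Classical in
/-- summation over the balls -/
lemma sum_balls {ι : Type} (X : Finset ι) {κ : Type} [DecidableEq κ] (f : ι → κ) (q : κ → ℝ)
    (H2 Λ : ℝ) (h : ∀ j ∈ X.image f, (((X.filter (fun z => f z = j)).card : ℝ) * H2) ^ 2 ≤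
      Λ * q j) :
    ((X.card : ℝ) * H2) ^ 2 ≤ ((X.image f).card : ℝ) * (Λ * ∑ j ∈ X.image f, q j) := by
  have h1 : (X.card : ℝ) = ∑ j ∈ X.image f, ((X.filter (fun z => f z = j)).card : ℝ) := by
    rw [Finset.card_eq_sum_card_image f X]
    push_cast
    rfl
  rw [h1, Finset.sum_mul]
  refine (sq_sum_le_card_mul_sum_sq).trans ?_
  apply mul_le_mul_of_nonneg_left _ (Nat.cast_nonneg _)
  rw [Finset.mul_sum]
  exact Finset.sum_le_sum h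

lemma arith (C₁ C₂ B r4 r2 rl rla F nb qs : ℝ) (hnb : nb ≤ C₁ * r4) (hexp : r4 * r2 * rl ≤ rla)
    (h1 : 0 ≤ C₁) (h2 : 0 ≤ C₂) (hB : 0 ≤ B) (h4 : 0 ≤ r4) (h5 : 0 ≤ r2) (h6 : 0 ≤ rl)
    (h7 : 0 ≤ rla) (hF : 0 ≤ F) (hq : 0 ≤ qs) :
    nb * (C₂ * (64 * r2) * rl * F * qs) ≤ (64 * (C₁ * C₂) + B) * rla * (F * qs) := by
  have hFq : 0 ≤ F * qs := mul_nonneg hF hq
  have a1 : nb * (C₂ * (64 * r2) * rl * F * qs) ≤ C₁ * r4 * (C₂ * (64 * r2) * rl * F * qs) :=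
    mul_le_mul_of_nonneg_right hnb (by positivity)
  have a2 : C₁ * r4 * (C₂ * (64 * r2) * rl * F * qs) =
      64 * (C₁ * C₂) * (r4 * r2 * rl) * (F * qs) := by ring
  rw [a2] at a1
  refine a1.trans (mul_le_mul_of_nonneg_right ?_ hFq)
  apply mul_le_mul _ hexp (by positivity) (by positivity)
  linarith

theorem pf_DL2 (hL2W : T_L2W) (hDA1 : T_DA1) : T_DL2 := by
  intro L β Ψ ψ δ b₀ B ε₀
  obtain ⟨N₁, hN₁⟩ := hDA1 L β Ψ ψ δ b₀ B ε₀
  refine ⟨max N₁ 5, fun N hN => ?_⟩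
  obtain ⟨C₁, hC₁, hA⟩ := hN₁ N ((le_max_left _ _).trans hN)
  by_cases hg : IsPU β ∧ IsPsi Ψ ψ ∧ 0 < δ ∧ δ ≤ 1 / 100
  swap
  · refine ⟨1, le_refl 1, ?_⟩
    intro κ R P A H En G c z₀ S a b l k QQ X w D₁ D₂ D₃ i j Q hR hd
    exact absurd ⟨hd.pu, hd.psi, hd.d0, hd.d1.trans (by norm_num)⟩ hg
  obtain ⟨gpu, gpsi, gd0, gd1⟩ := hg
  obtain ⟨C₂, hC₂, hE⟩ := hL2W β Ψ ψ δ N gpu gpsi gd0 gd1 ((le_max_right _ _).trans hN)
  have hC12 : 1 ≤ C₁ * C₂ := by nlinarith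
  refine ⟨64 * (C₁ * C₂) + |B|, by linarith [abs_nonneg B], ?_⟩
  intro κ R P A H En G c z₀ S a b l k QQ X w D₁ D₂ D₃ i j Q hR hd hij hw1 hw2 hD1 hD2 hD3 hD3'
    hN hQ
  have hR1 : 1 ≤ R := hd.R1
  have hR0 : 0 < R := by linarith
  have hw0 : 0 < w := lt_of_lt_of_le (Real.rpow_pos_of_pos hR0 _) hw1
  have hD1p : 0 < D₁ := lt_of_lt_of_le (Real.rpow_pos_of_pos hR0 _) hD1
  have hD2p : 0 < D₂ := lt_of_lt_of_le (Real.rpow_pos_of_pos hR0 _) hD2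
  have hRδ : 64 * (C₁ * C₂) ≤ R ^ δ := by linarith [abs_nonneg B]
  have hRC1 : C₁ ≤ R ^ δ := by nlinarith
  have hRC2 : C₂ ≤ R ^ δ := by nlinarith
  have hR64 : 64 ≤ R ^ δ := by linarith
  have hRB : B ≤ R ^ δ := by linarith [le_abs_self B]
  have ha0 := hd.a0
  have hH0 := hd.H0
  have hP1 := hd.P1
  have hPR := hd.PR
  have hδ1 := hd.d1
  have hε0 := hd.e0
  have hε1 := hd.e1
  -- the constant Λ
  set Λ : ℝ := C₂ * (64 * R ^ (2 * ε₀)) * R ^ (lo 2 * (8 * δ)) * (D₃ / D₂) * a ^ 4 *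
    ((S i).card : ℝ) * R ^ 2 * (w ^ 4 * D₁) with hΛ
  have hΛ0 : 0 ≤ Λ := by
    rw [hΛ]
    positivity
  rcases X.eq_empty_or_nonempty with hX | hX
  · subst hX
    simp
  obtain ⟨-, -, -, hsepc, -, hballs⟩ := hA κ R P A H En G c z₀ S a b l k QQ X hRC1 hd hX
  have hKw : 8 * (8 * P) ≤ w := by
    have h1 : R ^ δ * R ^ ε₀ ≤ R ^ (1 / 16 : ℝ) := by
      rw [← Real.rpow_add hR0]
      exact Real.rpow_le_rpow_of_exponent_le hR1 (by linarith)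
    have h2 : 64 * P ≤ R ^ δ * R ^ ε₀ := by
      apply mul_le_mul hR64 hPR (by linarith) (by linarith)
    linarith
  have hRw : R ^ δ ≤ w := by
    refine le_trans ?_ hw1
    exact Real.rpow_le_rpow_of_exponent_le hR1 (by linarith)
  have hcard : ∀ i, ((S i).card : ℝ) ≤ R ^ (10 : ℝ) := by
    intro i
    have h1 := hd.card i
    have h2 : B ≤ R ^ (2 : ℝ) :=
      hRB.trans (Real.rpow_le_rpow_of_exponent_le hR1 (by linarith))
    have h3 : R ^ (10 : ℝ) = R ^ (2 : ℝ) * R ^ (8 : ℝ) := by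
      rw [← Real.rpow_add hR0]
      norm_num
    rw [h3]
    exact h1.trans (mul_le_mul_of_nonneg_right h2 (Real.rpow_nonneg hR0.le _))
  have hK2 : (8 * P) ^ 2 ≤ 64 * R ^ (2 * ε₀) := by
    have h1 : R ^ (2 * ε₀) = R ^ ε₀ * R ^ ε₀ := by
      rw [← Real.rpow_add hR0]
      congr 1
      ring
    rw [h1]
    nlinarith
  have hmain : ∀ j' ∈ X.image (Bz R ε₀),
      (((X.filter (fun z => Bz R ε₀ z = j')).card : ℝ) * H ^ 2) ^ 2 ≤
        Λ * ((Q j').card : ℝ) := by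
    intro j' _
    obtain ⟨hQX, hQs, hQb, hQc⟩ := hQ j'
    have hSz : ∀ (T : Finset (Pk 2)) (z : Z 2), Bz R ε₀ z = j' →
        Sz R δ ε₀ l k QQ T z = SB QQ R (R ^ (1 - ε₀)) δ l k T j' := by
      intro T z hz
      unfold Sz
      rw [hz]
    have h := hE κ R w (8 * P) a H D₁ D₂ D₃ (G i) (SB QQ R (R ^ (1 - ε₀)) δ l k (S i) j')
      (SB QQ R (R ^ (1 - ε₀)) δ l k (S j) j') (X.filter (fun z => Bz R ε₀ z = j')) (Q j')
      hd.k0 hd.k1 hR1 hRC2 hRw hw2 (by linarith) hKw ha0 hH0 hD1 hD2 hD3 hD3' (hd.cls i).1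
      (hd.cls i).2.1
      (fun W hW => by
        obtain ⟨h1, -, h3, -, -, h6⟩ := hd.pk i W (mem_SB hW)
        exact ⟨h1, h3, h6⟩)
      ((Nat.cast_le.2 (card_SB _ _ _ _ _ _ _ _)).trans (hcard i))
      (fun W hW => (hd.pk j W (mem_SB hW)).2.2.1)
      (fun W hW W' hW' => hsepc i j hij W (mem_SB hW) W' (mem_SB hW'))
      (fun z hz z' hz' hne => hd.sep z (Finset.mem_filter.1 hz).1 z' (Finset.mem_filter.1 hz').1
        hne)
      hQs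
      (fun z hz => by
        obtain ⟨x, hx, hzx⟩ := hQc z (Finset.mem_filter.1 hz).1 (Finset.mem_filter.1 hz).2
        exact ⟨x, hx, by linarith⟩)
      (fun z hz => by
        have h1 := hd.FH z (Finset.mem_filter.1 hz).1 i
        rw [hSz _ z (Finset.mem_filter.1 hz).2] at h1
        exact h1)
      (fun x hx => by
        have h1 := hN x (hQX hx)
        rw [hSz _ x (hQb x hx), hSz _ x (hQb x hx)] at h1
        exact h1)
    refine h.trans ?_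
    have hcS : ((SB QQ R (R ^ (1 - ε₀)) δ l k (S i) j').card : ℝ) ≤ ((S i).card : ℝ) :=
      Nat.cast_le.2 (card_SB _ _ _ _ _ _ _ _)
    rw [hΛ]
    have h5 : C₂ * (8 * P) ^ 2 * R ^ (lo 2 * (8 * δ)) * (D₃ / D₂) * a ^ 4 *
        ((SB QQ R (R ^ (1 - ε₀)) δ l k (S i) j').card : ℝ) * R ^ 2 *
        (((Q j').card : ℝ) * w ^ 4 * D₁) ≤
        C₂ * (64 * R ^ (2 * ε₀)) * R ^ (lo 2 * (8 * δ)) * (D₃ / D₂) * a ^ 4 *
        ((S i).card : ℝ) * R ^ 2 * (((Q j').card : ℝ) * w ^ 4 * D₁) := by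
      gcongr
    refine h5.trans (le_of_eq ?_)
    ring
  have hsum := sum_balls X (Bz R ε₀) (fun j' => ((Q j').card : ℝ)) (H ^ 2) Λ hmain
  have hq0 : 0 ≤ ∑ j' ∈ X.image (Bz R ε₀), ((Q j').card : ℝ) :=
    Finset.sum_nonneg fun _ _ => Nat.cast_nonneg _
  refine hsum.trans ?_
  have hexp : R ^ (4 * ε₀) * R ^ (2 * ε₀) * R ^ (lo 2 * (8 * δ)) ≤ R ^ (la * (δ + ε₀)) := by
    rw [← Real.rpow_add hR0, ← Real.rpow_add hR0]
    apply Real.rpow_le_rpow_of_exponent_le hR1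
    have h1 : lo 2 = 400 := by
      unfold lo
      norm_num
    rw [h1]
    unfold la
    nlinarith
  clear hsum hmain hN hQ hsepc hd hE hA hN₁
  generalize (∑ j' ∈ X.image (Bz R ε₀), ((Q j').card : ℝ)) = qs at hq0 ⊢
  generalize ((X.image (Bz R ε₀)).card : ℝ) = nb at hballs ⊢
  have hF : 0 ≤ (D₃ / D₂) * a ^ 4 * ((S i).card : ℝ) * R ^ 2 * (w ^ 4 * D₁) := by
    have h1 : (0 : ℝ) ≤ ((S i).card : ℝ) := Nat.cast_nonneg _
    generalize ((S i).card : ℝ) = ns at h1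
    positivity
  have h := arith C₁ C₂ |B| (R ^ (4 * ε₀)) (R ^ (2 * ε₀)) (R ^ (lo 2 * (8 * δ)))
    (R ^ (la * (δ + ε₀))) ((D₃ / D₂) * a ^ 4 * ((S i).card : ℝ) * R ^ 2 * (w ^ 4 * D₁)) nb qs
    hballs hexp (by linarith) (by linarith) (abs_nonneg B) (Real.rpow_nonneg hR0.le _)
    (Real.rpow_nonneg hR0.le _) (Real.rpow_nonneg hR0.le _) (Real.rpow_nonneg hR0.le _) hF hq0
  have e1 : Λ = C₂ * (64 * R ^ (2 * ε₀)) * R ^ (lo 2 * (8 * δ)) *
      ((D₃ / D₂) * a ^ 4 * ((S i).card : ℝ) * R ^ 2 * (w ^ 4 * D₁)) := by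
    rw [hΛ]
    ring
  rw [e1]
  refine h.trans (le_of_eq ?_)
  ring

end Pool.Agent.H95.B2.DL2
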